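import Pool.Agent.Helper56.CP.Stmts
import Pool.Agent.Helper61.SO.MER

set_option autoImplicit false

open Finset

namespace Pool.Agent.Helper56.CP

/-- the number of prime factors of `n ≤ H` is at most `2 log H` -/
theorem sqs_card_primeFactors (n : ℕ) (hn : n ≠ 0) (H : ℝ) (hH : (n : ℝ) ≤ H) :
    (n.primeFactors.card : ℝ) ≤ 2 * Real.log H := by
  have h1 : 2 ^ n.primeFactors.card ≤ n := by
    have h2 : 2 ^ n.primeFactors.card ≤ ∏ p ∈ n.primeFactors, p :=
      Finset.pow_card_le_prod _ _ _ (fun p hp => (Nat.prime_of_mem_primeFactors hp).two_le)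
    exact h2.trans (Nat.le_of_dvd (Nat.pos_of_ne_zero hn) (Nat.prod_primeFactors_dvd n))
  have h3 : ((2 : ℝ) ^ n.primeFactors.card) ≤ H := by
    have : ((2 ^ n.primeFactors.card : ℕ) : ℝ) ≤ n := by exact_mod_cast h1
    push_cast at this
    linarith
  have h4 : Real.log ((2 : ℝ) ^ n.primeFactors.card) ≤ Real.log H :=
    Real.log_le_log (by positivity) h3
  rw [Real.log_pow] at h4
  have h5 : (1 / 2 : ℝ) ≤ Real.log 2 := by
    have := Real.log_two_gt_d9
    linarith
  have h6 : (0 : ℝ) ≤ (n.primeFactors.card : ℝ) := by positivity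
  nlinarith

theorem st_SQS : ST_SQS := by
  classical
  obtain ⟨C, hC0, hC⟩ := Pool.Agent.Helper17.SO.mer_abs
  refine ⟨2 * C, by linarith, fun S y0 y H hy0 hy hH hS => ?_⟩
  have hCy := abs_le.mp (hC y (hy0.trans hy))
  have hCy0 := abs_le.mp (hC y0 hy0)
  have hPP : ∀ n : ℕ, PP n = (range (n + 1)).filter Nat.Prime := fun n => rfl
  rw [← hPP] at hCy hCy0
  have hSQ : SQ S y0 y = (PP y).filter (fun l => y0 < l ∧ ∀ a ∈ S, ∀ b ∈ S, a ≠ b → a % l ≠ b % l) := by
    unfold SQ
    congr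
  have hsub : SQ S y0 y ⊆ PP y := by
    rw [hSQ]
    exact filter_subset _ _
  constructor
  · -- the primes in `(y0, y]`
    set Q1 := (PP y).filter (fun l => y0 < l) with hQ1
    set R := Q1.filter (fun l => ¬ ∀ a ∈ S, ∀ b ∈ S, a ≠ b → a % l ≠ b % l) with hR
    have hsplit : ∑ l ∈ Q1, 1 / (l : ℝ) = ∑ l ∈ SQ S y0 y, 1 / (l : ℝ) + ∑ l ∈ R, 1 / (l : ℝ) := by
      rw [hR, ← Finset.sum_filter_add_sum_filter_not Q1
        (fun l => ∀ a ∈ S, ∀ b ∈ S, a ≠ b → a % l ≠ b % l)]
      congr 2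
      rw [hSQ, hQ1, Finset.filter_filter]
    have hQ1sum : ∑ l ∈ PP y, 1 / (l : ℝ) = ∑ l ∈ Q1, 1 / (l : ℝ) + ∑ l ∈ PP y0, 1 / (l : ℝ) := by
      rw [hQ1, ← Finset.sum_filter_add_sum_filter_not (PP y) (fun l => y0 < l)]
      congr 2
      ext l
      simp only [PP, mem_filter, mem_range]
      constructor
      · rintro ⟨⟨h1, h2⟩, h3⟩
        exact ⟨by omega, h2⟩
      · rintro ⟨h1, h2⟩
        exact ⟨⟨by omega, h2⟩, by omega⟩
    have hRle : ∑ l ∈ R, 1 / (l : ℝ) ≤ 2 * (S.card : ℝ) ^ 2 * Real.log H / y0 := by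
      have hy0pos : (0 : ℝ) < y0 := by
        have : 0 < y0 := by omega
        exact_mod_cast this
      have h1 : ∑ l ∈ R, 1 / (l : ℝ) ≤ ∑ l ∈ R, 1 / (y0 : ℝ) := by
        refine Finset.sum_le_sum (fun l hl => ?_)
        have hl' : y0 < l := by
          have := (mem_filter.mp (mem_filter.mp hl).1).2
          exact this
        have : (y0 : ℝ) ≤ l := by exact_mod_cast hl'.le
        exact one_div_le_one_div_of_le hy0pos this
      have h2 : (R.card : ℝ) ≤ 2 * (S.card : ℝ) ^ 2 * Real.log H := by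
        have hRsub : R ⊆ (S.offDiag).biUnion (fun q => (Nat.dist q.1 q.2).primeFactors) := by
          intro l hl
          obtain ⟨hl1, hl2⟩ := mem_filter.mp hl
          have hlp : l.Prime := (mem_filter.mp (mem_filter.mp hl1).1).2
          push Not at hl2
          obtain ⟨a, ha, b, hb, hab, habl⟩ := hl2
          refine mem_biUnion.mpr ⟨(a, b), mem_offDiag.mpr ⟨ha, hb, hab⟩, ?_⟩
          refine Nat.mem_primeFactors.mpr ⟨hlp, ?_, ?_⟩
          · rcases le_total a b with h | h
            · rw [Nat.dist_eq_sub_of_le h]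
              exact (Nat.modEq_iff_dvd' h).mp habl
            · rw [Nat.dist_eq_sub_of_le_right h]
              exact (Nat.modEq_iff_dvd' h).mp habl.symm
          · intro h0
            exact hab (Nat.eq_of_dist_eq_zero h0)
        have h3 : R.card ≤ ∑ q ∈ S.offDiag, (Nat.dist q.1 q.2).primeFactors.card :=
          (card_le_card hRsub).trans card_biUnion_le
        have h4 : (R.card : ℝ) ≤ ∑ q ∈ S.offDiag, ((Nat.dist q.1 q.2).primeFactors.card : ℝ) := by
          exact_mod_cast h3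
        have h5 : ∑ q ∈ S.offDiag, ((Nat.dist q.1 q.2).primeFactors.card : ℝ) ≤
            ∑ q ∈ S.offDiag, 2 * Real.log H := by
          refine Finset.sum_le_sum (fun q hq => ?_)
          obtain ⟨h1, h2, h3⟩ := mem_offDiag.mp hq
          refine sqs_card_primeFactors _ (fun h0 => h3 (Nat.eq_of_dist_eq_zero h0)) H ?_
          rcases le_total q.1 q.2 with h | h
          · rw [Nat.dist_eq_sub_of_le h]
            have : ((q.2 - q.1 : ℕ) : ℝ) ≤ q.2 := by exact_mod_cast Nat.sub_le _ _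
            exact this.trans (hS _ h2)
          · rw [Nat.dist_eq_sub_of_le_right h]
            have : ((q.1 - q.2 : ℕ) : ℝ) ≤ q.1 := by exact_mod_cast Nat.sub_le _ _
            exact this.trans (hS _ h1)
        have hlogH : 0 ≤ Real.log H := Real.log_nonneg hH
        have h6 : (S.offDiag.card : ℝ) ≤ (S.card : ℝ) ^ 2 := by
          have : S.offDiag.card ≤ S.card ^ 2 := by
            rw [offDiag_card, sq]
            exact Nat.sub_le _ _
          exact_mod_cast this
        rw [Finset.sum_const, nsmul_eq_mul] at h5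
        nlinarith
      rw [Finset.sum_const, nsmul_eq_mul] at h1
      calc ∑ l ∈ R, 1 / (l : ℝ) ≤ R.card * (1 / (y0 : ℝ)) := h1
        _ ≤ (2 * (S.card : ℝ) ^ 2 * Real.log H) * (1 / (y0 : ℝ)) :=
            mul_le_mul_of_nonneg_right h2 (by positivity)
        _ = _ := by ring
    linarith [hCy.1, hCy0.2]
  · have h1 : ∑ l ∈ SQ S y0 y, 1 / (l : ℝ) ≤ ∑ l ∈ PP y, 1 / (l : ℝ) :=
      Finset.sum_le_sum_of_subset_of_nonneg hsub (fun l _ _ => by positivity)
    linarith [hCy.2]

end Pool.Agent.Helper56.CP
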